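import Pool.Agent.H90.STK.Stmts

/-!
# Sticky families of lines: windows of times
-/

set_option autoImplicit false

namespace Pool.STK.WIN

open Finset Real MeasureTheory
open Pool.Agent.H49.Ent Pool.Agent.H32.Dense

lemma floor_var (a b : ℝ) : |((⌊a⌋ - ⌊b⌋ : ℤ) : ℝ)| ≤ |a - b| + 1 := by
  have h1 := Int.floor_le a
  have h2 := Int.lt_floor_add_one a
  have h3 := Int.floor_le b
  have h4 := Int.lt_floor_add_one b
  push_cast
  rw [abs_le]
  have h5 := le_abs_self (a - b)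
  have h6 := neg_abs_le (a - b)
  constructor <;> linarith

lemma close_of_floor_eq {a b : ℝ} (h : ⌊a⌋ = ⌊b⌋) : |a - b| ≤ 1 := by
  have h1 := Int.floor_le a
  have h2 := Int.lt_floor_add_one a
  have h3 := Int.floor_le b
  have h4 := Int.lt_floor_add_one b
  rw [h] at h1 h2
  rw [abs_le]
  constructor <;> linarith

/-- Counting bound with a constant. -/
lemma CH_le_vec_const {Ω T : Type} [Fintype Ω] {m : ℕ} {p : Ω → ℝ} (hp : IsLaw p)
    (X : Ω → Fin m → ℤ) (W : Ω → T) (L : ℝ)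
    (hX : ∀ ω ω', W ω = W ω' → ∀ i, |((X ω i - X ω' i : ℤ) : ℝ)| ≤ L) :
    CH p X W ≤ m * Real.log (2 * L + 1) := by
  have h := CH_le_vec hp.nonneg hp.sum_one X W (fun _ => L) (fun ω ω' _ _ h i => hX ω ω' h i)
  rwa [Ex_const hp.sum_one] at h

lemma log_two_pow (k : ℕ) : Real.log (2 * (2 ^ k + 1) + 1) ≤ k * Real.log 2 + Real.log 100 := by
  rw [← Real.log_pow, ← Real.log_mul (by positivity) (by norm_num)]
  apply Real.log_le_log (by positivity)
  have : (1 : ℝ) ≤ 2 ^ k := one_le_pow₀ (by norm_num)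
  linarith

end Pool.STK.WIN

namespace Pool.STK

open Finset Real MeasureTheory
open Pool.Agent.H49.Ent Pool.Agent.H32.Dense

theorem win_thm : WINStmt := by
  intro m Ω ζ _ p u d Z hp k t₀ h0 h1
  have h2k : (0 : ℝ) < 2 ^ k := by positivity
  refine ⟨?_, ?_, ?_⟩
  · intro s j
    funext ω
    unfold Xp pt
    congr 1
    funext i
    ring
  · intro j
    funext ω i
    unfold Fl fl rd
    congr 1
    rw [pow_add]
    field_simp
  · intro j
    have h2j : (0 : ℝ) < 2 ^ j := by positivity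
    set dw : Ω → Fin m → ℝ := fun ω i => (2 ^ k)⁻¹ * d ω i with hdw
    have e1 := CH_le_add hp.nonneg (Fl (pt u d t₀) j) (Fl d j) (fun ω => (Fl dw j ω, Z ω))
    have e2 : CH p (Fl d j) (fun ω => (Fl dw j ω, Z ω)) ≤ m * Real.log (2 * (2 ^ k + 1) + 1) := by
      refine WIN.CH_le_vec_const hp _ _ (2 ^ k + 1) ?_
      intro ω ω' h i
      have h3 : Fl dw j ω = Fl dw j ω' := (Prod.ext_iff.mp h).1
      have h4 : ⌊2 ^ j * dw ω i⌋ = ⌊2 ^ j * dw ω' i⌋ := congrFun h3 i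
      have h5 := WIN.close_of_floor_eq h4
      have h6 := WIN.floor_var (2 ^ j * d ω i) (2 ^ j * d ω' i)
      have h7 : 2 ^ j * d ω i - 2 ^ j * d ω' i = 2 ^ k * (2 ^ j * dw ω i - 2 ^ j * dw ω' i) := by
        simp only [hdw]
        field_simp
      have h8 : |2 ^ j * d ω i - 2 ^ j * d ω' i| ≤ 2 ^ k := by
        rw [h7, abs_mul, abs_of_pos h2k]
        nlinarith
      have h9 : Fl d j ω i - Fl d j ω' i = ⌊2 ^ j * d ω i⌋ - ⌊2 ^ j * d ω' i⌋ := rfl
      rw [h9]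
      linarith
    have e3 : CH p (Fl (pt u d t₀) j) (fun ω => (Fl d j ω, (Fl dw j ω, Z ω))) ≤
        CH p (Fl (pt u d t₀) j) (fun ω => (Fl d j ω, Z ω)) := by
      refine CH_mono_cond hp.nonneg ?_
      intro ω ω' _ _ h
      simp only [Prod.mk.injEq] at h ⊢
      exact ⟨h.1, h.2.2⟩
    have e4 := CH_le_add hp.nonneg (Fl (pt u d t₀) j) (Fl u j) (fun ω => (Fl d j ω, Z ω))
    have e5 : CH p (Fl (pt u d t₀) j) (fun ω => (Fl u j ω, (Fl d j ω, Z ω))) ≤
        m * Real.log (2 * 3 + 1) := by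
      refine WIN.CH_le_vec_const hp _ _ 3 ?_
      intro ω ω' h i
      simp only [Prod.mk.injEq] at h
      have h4 : ⌊2 ^ j * u ω i⌋ = ⌊2 ^ j * u ω' i⌋ := congrFun h.1 i
      have h4' : ⌊2 ^ j * d ω i⌋ = ⌊2 ^ j * d ω' i⌋ := congrFun h.2.1 i
      have h5 := WIN.close_of_floor_eq h4
      have h5' := WIN.close_of_floor_eq h4'
      have h6 := WIN.floor_var (2 ^ j * pt u d t₀ ω i) (2 ^ j * pt u d t₀ ω' i)
      have h7 : 2 ^ j * pt u d t₀ ω i - 2 ^ j * pt u d t₀ ω' i =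
          (2 ^ j * u ω i - 2 ^ j * u ω' i) + t₀ * (2 ^ j * d ω i - 2 ^ j * d ω' i) := by
        unfold pt
        ring
      have h8 : |2 ^ j * pt u d t₀ ω i - 2 ^ j * pt u d t₀ ω' i| ≤ 2 := by
        rw [h7]
        refine (abs_add_le _ _).trans ?_
        rw [abs_mul, abs_of_nonneg h0]
        nlinarith [abs_nonneg (2 ^ j * d ω i - 2 ^ j * d ω' i)]
      have h9 : Fl (pt u d t₀) j ω i - Fl (pt u d t₀) j ω' i =
          ⌊2 ^ j * pt u d t₀ ω i⌋ - ⌊2 ^ j * pt u d t₀ ω' i⌋ := rfl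
      rw [h9]
      linarith
    have e6 : (m : ℝ) * Real.log (2 * (2 ^ k + 1) + 1) ≤ m * (k * Real.log 2) + cc m := by
      have := mul_le_mul_of_nonneg_left (WIN.log_two_pow k) (Nat.cast_nonneg (α := ℝ) m)
      unfold cc
      linarith
    have e7 : (m : ℝ) * Real.log (2 * 3 + 1) ≤ cc m := by
      unfold cc
      refine mul_le_mul_of_nonneg_left (Real.log_le_log (by norm_num) (by norm_num))
        (Nat.cast_nonneg m)
    linarith

end Pool.STK
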