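import Pool.Agent.H90.STK.Stmts

/-!
# Sticky families of lines: replacing the resolution by a multiple of `N`
-/

set_option autoImplicit false

namespace Pool.STK.RED

open Finset Real MeasureTheory
open Pool.Agent.H49.Ent Pool.Agent.H32.Dense

/-- Floors at dyadic scales are nested. -/
lemma floor_nested_le {j J : ℕ} (h : j ≤ J) {x y : ℝ} (e : ⌊(2 : ℝ) ^ J * x⌋ = ⌊(2 : ℝ) ^ J * y⌋) :
    ⌊(2 : ℝ) ^ j * x⌋ ≤ ⌊(2 : ℝ) ^ j * y⌋ := by
  have hp : (0 : ℝ) < 2 ^ (J - j) := by positivity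
  have hJ : (2 : ℝ) ^ J = 2 ^ (J - j) * 2 ^ j := by rw [← pow_add, Nat.sub_add_cancel h]
  set a := ⌊(2 : ℝ) ^ j * x⌋ with ha
  have h1 : (a : ℝ) ≤ 2 ^ j * x := Int.floor_le _
  have h2 : ((2 ^ (J - j) * a : ℤ) : ℝ) ≤ 2 ^ J * x := by
    push_cast
    rw [hJ, mul_assoc]
    exact mul_le_mul_of_nonneg_left h1 hp.le
  have h3 : (2 ^ (J - j) * a : ℤ) ≤ ⌊(2 : ℝ) ^ J * y⌋ := by
    rw [← e]
    exact Int.le_floor.mpr h2
  have h4 : ((2 ^ (J - j) * a : ℤ) : ℝ) ≤ 2 ^ J * y := Int.le_floor.mp h3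
  refine Int.le_floor.mpr ?_
  push_cast at h4
  rw [hJ, mul_assoc] at h4
  exact le_of_mul_le_mul_left h4 hp

lemma floor_nested {j J : ℕ} (h : j ≤ J) {x y : ℝ} (e : ⌊(2 : ℝ) ^ J * x⌋ = ⌊(2 : ℝ) ^ J * y⌋) :
    ⌊(2 : ℝ) ^ j * x⌋ = ⌊(2 : ℝ) ^ j * y⌋ :=
  le_antisymm (floor_nested_le h e) (floor_nested_le h e.symm)

lemma fl_nested {m j J : ℕ} (h : j ≤ J) {x y : Fin m → ℝ} (e : fl J x = fl J y) :
    fl j x = fl j y := by
  funext i
  exact floor_nested h (congrFun e i)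

lemma CH_Xp_mono {m : ℕ} {Ω ζ : Type} [Fintype Ω] {p : Ω → ℝ} (hp : IsLaw p)
    (u d : Ω → Fin m → ℝ) (Z : Ω → ζ) {j J : ℕ} (h : j ≤ J) (t : ℝ) :
    CH p (Xp u d t j) Z ≤ CH p (Xp u d t J) Z := by
  refine CH_mono_left hp.nonneg ?_
  intro ω ω' _ _ e
  exact fl_nested h (Prod.ext_iff.mp e).1

end Pool.STK.RED

namespace Pool.STK

open Finset Real MeasureTheory
open Pool.Agent.H49.Ent Pool.Agent.H32.Dense

theorem red_thm (hRFN : RFNStmt) (hINT : INTStmt) : REDStmt := by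
  intro m a R η ε N ha hη hε hN
  obtain ⟨K, hK⟩ := exists_nat_ge ((|R - η| * N + m * (N * Real.log 2) + cc m) / η)
  refine ⟨2 * N + K, ?_⟩
  intro J hJ Ω ζ _ p u d Z hp hS hM
  have hlt : J < N * (J / N) + N := by
    have := Nat.lt_mul_div_succ J (by omega : 0 < N)
    rw [Nat.mul_succ] at this
    exact this
  have hle : N * (J / N) ≤ J := Nat.mul_div_le J N
  set J' := N * (J / N) with hJ'
  have hltR : (J : ℝ) < J' + N := by exact_mod_cast hlt
  have hleR : (J' : ℝ) ≤ J := by exact_mod_cast hle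
  have hJR : (2 * N + K : ℝ) ≤ J := by exact_mod_cast hJ
  have hK0 : (0 : ℝ) ≤ K := Nat.cast_nonneg K
  have hN0 : (1 : ℝ) ≤ N := by exact_mod_cast hN
  constructor
  · intro j hj
    refine (hS j (hj.trans hle)).trans ?_
    have : (J : ℝ) ≤ 2 * J' := by linarith
    nlinarith
  · have e1 := hRFN m Ω ζ p d Z hp (J - J') J'
    rw [Nat.add_sub_cancel' hle] at e1
    have e2 : ((J - J' : ℕ) : ℝ) ≤ N := by
      rw [Nat.cast_sub hle]
      linarith
    have hl2 : 0 < Real.log 2 := Real.log_pos (by norm_num)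
    have e3 : (m : ℝ) * (((J - J' : ℕ) : ℝ) * Real.log 2) ≤ m * (N * Real.log 2) := by
      refine mul_le_mul_of_nonneg_left ?_ (Nat.cast_nonneg m)
      exact mul_le_mul_of_nonneg_right e2 hl2.le
    have e4 : Xav p u d Z J' ≤ Xav p u d Z J := by
      unfold Xav
      refine intervalIntegral.integral_mono (by norm_num) ((hINT m Ω ζ p u d hp).1 Z J' 0 1)
        ((hINT m Ω ζ p u d hp).1 Z J 0 1) ?_
      intro t
      exact RED.CH_Xp_mono hp u d Z hle t
    have e5 : a * Xav p u d Z J' ≤ a * Xav p u d Z J :=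
      mul_le_mul_of_nonneg_left e4 (by linarith)
    have e6 : |R - η| * N + m * (N * Real.log 2) + cc m ≤ η * K := by
      rw [div_le_iff₀ hη] at hK
      linarith
    have e7 : -(|R - η| * N) ≤ (R - η) * (J - J') := by
      have a1 : 0 ≤ (J : ℝ) - J' := by linarith
      have a2 : (J : ℝ) - J' ≤ N := by linarith
      have a3 := neg_abs_le (R - η)
      have a4 := abs_nonneg (R - η)
      nlinarith
    have e8 : (N : ℝ) * ((J / N : ℕ) : ℝ) = J' := by
      rw [hJ']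
      push_cast
      rfl
    rw [e8]
    nlinarith

end Pool.STK
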